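import Pool.Agent.H17.U3

set_option autoImplicit false

namespace Pool.Agent.Results.MP_26251e_nt.Q2False

/-- `d p m n`: the coefficient of `x ^ n` in `(1 - x) ^ (-m) ∏ (1 - x ^ (p ^ j)) ^ (-(p - 1) m)`.
The factor `1 / (1 - x ^ (p ^ j))` is the series with coefficient `1` at the multiples of `p ^ j`;
the factors with `j > n` do not affect the coefficient. -/
noncomputable def d (p m n : ℕ) : ℤ :=
  PowerSeries.coeff n ((PowerSeries.mk (fun _ : ℕ => (1 : ℤ))) ^ m * (∏ i ∈ Finset.range (n + 1),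
    PowerSeries.mk (fun j : ℕ => if p ^ i ∣ j then (1 : ℤ) else 0)) ^ ((p - 1) * m))

/-- the `p`-adic valuation with value `⊤` at zero -/
noncomputable def nu (p : ℕ) (a : ℤ) : ℕ∞ := emultiplicity (p : ℤ) a

theorem result :
    (∀ n : ℕ, 1 ≤ n → nu 3 n + 4 ≤ nu 3 (d 3 8 (3 ^ 2 * n) - d 3 8 n)) ∧
    ¬ (∀ p k : ℕ, p.Prime → 3 ≤ p →
        {n : ℕ | 1 ≤ n ∧ nu p (d p (p * k + (p - 1)) (p ^ 2 * n) - d p (p * k + (p - 1)) n) =
          nu p n + ((4 - if p = 3 then 1 else 0 : ℕ) : ℕ∞)}.Infinite) := by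
  have hn : ∀ n : ℕ, 1 ≤ n → ∃ r q : ℕ, n = 3 ^ r * q ∧ nu 3 n = r := by
    intro n h
    obtain ⟨r, q, hq, rfl⟩ := Nat.exists_eq_pow_mul_and_not_dvd (by omega : n ≠ 0) 3 (by norm_num)
    refine ⟨r, q, rfl, emultiplicity_eq_coe.2 ⟨by push_cast; exact dvd_mul_right _ _, fun h' => ?_⟩⟩
    have h2 : 3 ^ (r + 1) ∣ 3 ^ r * q := by exact_mod_cast h'
    rw [pow_succ] at h2
    exact hq (Nat.dvd_of_mul_dvd_mul_left (by positivity) h2)
  have h2 : ∀ n : ℕ, 1 ≤ n → nu 3 n + 4 ≤ nu 3 (d 3 8 (3 ^ 2 * n) - d 3 8 n) := by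
    intro n h
    obtain ⟨r, q, rfl, e⟩ := hn n h
    rw [e]
    have := le_emultiplicity_of_pow_dvd (Pool.Agent.H17.U3.q2 r q)
    exact_mod_cast this
  refine ⟨h2, fun H => ?_⟩
  obtain ⟨n, h, e⟩ := (H 3 2 Nat.prime_three le_rfl).nonempty
  have := h2 n h
  rw [show 3 * 2 + (3 - 1) = 8 by norm_num] at e
  obtain ⟨r, q, -, e2⟩ := hn n h
  rw [e, e2] at this
  simp only [if_true] at this
  have h3 : r + 4 ≤ r + (4 - 1) := by exact_mod_cast this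
  omega

end Pool.Agent.Results.MP_26251e_nt.Q2False
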